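import Mathlib

/-!
# MP_87c242_co : the 3-neighbour bootstrap percolation number of `P_m ⊠ P_n`

`m₃(m,n) = 3` if `min(m,n) ≥ 3`, `m₃ = ⌊max/2⌋ + 2` if `min(m,n) = 2`, and `m₃ = max(m,n)` if
`min(m,n) = 1`.
-/

namespace Pool.Agent.Results.MP_87c242_co.ExactThreeNeighbour

open SimpleGraph

/-- The strong product `P_m ⊠ P_n` (the `m × n` king's graph). -/
def King (m n : ℕ) : SimpleGraph (Fin m × Fin n) where
  Adj u v := u ≠ v ∧ (u.1.1 ≤ v.1.1 + 1 ∧ v.1.1 ≤ u.1.1 + 1) ∧
    (u.2.1 ≤ v.2.1 + 1 ∧ v.2.1 ≤ u.2.1 + 1)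
  symm := ⟨fun _ _ h => ⟨h.1.symm, ⟨h.2.1.2, h.2.1.1⟩, ⟨h.2.2.2, h.2.2.1⟩⟩⟩
  loopless := ⟨fun _ h => h.1 rfl⟩

variable {V : Type*}

/-- One round of the `r`-neighbour process. -/
def step (r : ℕ) (G : SimpleGraph V) (A : Set V) : Set V :=
  A ∪ {v | r ≤ {u | u ∈ A ∧ G.Adj v u}.ncard}

/-- `A` fully infects `G` under the `r`-neighbour process. -/
def FullyInfects (r : ℕ) (G : SimpleGraph V) (A : Set V) : Prop :=
  ⋃ t : ℕ, (step r G)^[t] A = Set.univ

/-- The minimum size of a set that fully infects `G` under the `r`-neighbour process. -/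
noncomputable def minInfect (r : ℕ) (G : SimpleGraph V) : ℕ :=
  sInf {k : ℕ | ∃ A : Set V, FullyInfects r G A ∧ A.ncard = k}

/-- `m₃(m,n)`. -/
noncomputable def m3 (m n : ℕ) : ℕ := minInfect 3 (King m n)

/-- Closed sets of the process. -/
def Closed (r : ℕ) (G : SimpleGraph V) (C : Set V) : Prop :=
  ∀ v, r ≤ {u | u ∈ C ∧ G.Adj v u}.ncard → v ∈ C

lemma iterate_subset [Finite V] {r : ℕ} {G : SimpleGraph V} {A C : Set V} (hC : Closed r G C)
    (hA : A ⊆ C) (t : ℕ) : (step r G)^[t] A ⊆ C := by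
  induction t with
  | zero => exact hA
  | succ t ih =>
    rw [Function.iterate_succ_apply']
    rintro v (hv | hv)
    · exact ih hv
    · apply hC
      refine le_trans hv (Set.ncard_le_ncard ?_ (Set.toFinite _))
      rintro u ⟨hu, hu'⟩
      exact ⟨ih hu, hu'⟩

lemma iterate_mono {r : ℕ} {G : SimpleGraph V} {A : Set V} {s t : ℕ} (h : s ≤ t) :
    (step r G)^[s] A ⊆ (step r G)^[t] A := by
  induction t, h using Nat.le_induction with
  | base => exact subset_rfl
  | succ t _ ih =>
    rw [Function.iterate_succ_apply']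
    exact ih.trans Set.subset_union_left

lemma closed_iUnion [Finite V] (r : ℕ) (G : SimpleGraph V) (A : Set V) :
    Closed r G (⋃ t : ℕ, (step r G)^[t] A) := by
  have hfin := Fintype.ofFinite V
  have hT : ∃ T : ℕ, (⋃ t : ℕ, (step r G)^[t] A) ⊆ (step r G)^[T] A := by
    classical
    let f : V → ℕ := fun v => if h : ∃ t : ℕ, v ∈ (step r G)^[t] A then h.choose else 0
    refine ⟨Finset.univ.sup f, ?_⟩
    intro v hv
    rw [Set.mem_iUnion] at hv
    have hf : v ∈ (step r G)^[f v] A := by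
      simp only [f, hv, dite_true]
      exact hv.choose_spec
    exact iterate_mono (Finset.le_sup (Finset.mem_univ v)) hf
  obtain ⟨T, hT⟩ := hT
  intro v hv
  rw [Set.mem_iUnion]
  refine ⟨T + 1, ?_⟩
  rw [Function.iterate_succ_apply']
  right
  refine le_trans hv (Set.ncard_le_ncard ?_ (Set.toFinite _))
  rintro u ⟨hu, hu'⟩
  exact ⟨hT hu, hu'⟩

lemma fullyInfects_iff [Finite V] {r : ℕ} {G : SimpleGraph V} {A : Set V} :
    FullyInfects r G A ↔ ∀ C : Set V, Closed r G C → A ⊆ C → C = Set.univ := by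
  constructor
  · intro h C hC hA
    rw [Set.eq_univ_iff_forall]
    intro v
    have hv : v ∈ ⋃ t : ℕ, (step r G)^[t] A := by rw [h]; trivial
    rw [Set.mem_iUnion] at hv
    obtain ⟨t, ht⟩ := hv
    exact iterate_subset hC hA t ht
  · intro h
    exact h _ (closed_iUnion r G A) (Set.subset_iUnion (fun t => (step r G)^[t] A) 0)

lemma fullyInfects_univ (r : ℕ) (G : SimpleGraph V) : FullyInfects r G Set.univ := by
  unfold FullyInfects
  rw [Set.eq_univ_iff_forall]
  intro v
  rw [Set.mem_iUnion]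
  exact ⟨0, trivial⟩

/-- The minimum is attained. -/
lemma exists_min [Finite V] (r : ℕ) (G : SimpleGraph V) :
    ∃ A : Set V, FullyInfects r G A ∧ A.ncard = minInfect r G :=
  Nat.sInf_mem (s := {k : ℕ | ∃ A : Set V, FullyInfects r G A ∧ A.ncard = k})
    ⟨_, Set.univ, fullyInfects_univ r G, rfl⟩

lemma minInfect_le {r : ℕ} {G : SimpleGraph V} {A : Set V} (hA : FullyInfects r G A) {k : ℕ}
    (hk : A.ncard ≤ k) : minInfect r G ≤ k :=
  le_trans (Nat.sInf_le ⟨A, hA, rfl⟩) hk

lemma le_minInfect [Finite V] {r : ℕ} {G : SimpleGraph V} {k : ℕ}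
    (h : ∀ A : Set V, FullyInfects r G A → k ≤ A.ncard) : k ≤ minInfect r G := by
  obtain ⟨A, hA, hAk⟩ := exists_min r G
  rw [← hAk]; exact h A hA

/-- Transfer along an isomorphism. -/
lemma minInfect_iso_le {W : Type*} [Finite V] [Finite W] {G : SimpleGraph V} {G' : SimpleGraph W}
    (r : ℕ) (φ : G ≃g G') : minInfect r G' ≤ minInfect r G := by
  obtain ⟨A, hA, hAk⟩ := exists_min r G
  rw [fullyInfects_iff] at hA
  refine minInfect_le (A := φ '' A) ?_ ?_
  · rw [fullyInfects_iff]
    intro C hC hAC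
    have h1 : φ ⁻¹' C = Set.univ := by
      apply hA
      · intro v hv
        apply hC
        refine le_trans hv ?_
        rw [← Set.ncard_image_of_injective _ φ.injective]
        apply Set.ncard_le_ncard _ (Set.toFinite _)
        rintro _ ⟨u, ⟨hu, hvu⟩, rfl⟩
        exact ⟨hu, φ.map_adj_iff.2 hvu⟩
      · intro v hv
        exact hAC ⟨v, hv, rfl⟩
    rw [Set.eq_univ_iff_forall] at h1 ⊢
    intro w
    have := h1 (φ.symm w)
    simpa using this
  · rw [← hAk]
    exact Set.ncard_image_le (Set.toFinite _)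

/-- The swap isomorphism. -/
def swapIso (m n : ℕ) : King m n ≃g King n m where
  toEquiv := Equiv.prodComm _ _
  map_rel_iff' := by
    rintro ⟨a, b⟩ ⟨c, d⟩
    simp only [King, Equiv.prodComm_apply, Prod.swap_prod_mk, ne_eq, Prod.mk.injEq]
    tauto

lemma m3_comm (m n : ℕ) : m3 m n = m3 n m :=
  le_antisymm (minInfect_iso_le 3 (swapIso n m)) (minInfect_iso_le 3 (swapIso m n))

/-- Membership of a cell given by natural numbers. -/
def Mem {m n : ℕ} (C : Set (Fin m × Fin n)) (i j : ℕ) : Prop :=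
  ∃ (hi : i < m) (hj : j < n), ((⟨i, hi⟩, ⟨j, hj⟩) : Fin m × Fin n) ∈ C

lemma rule {m n : ℕ} {C : Set (Fin m × Fin n)} (hC : Closed 3 (King m n) C) {i j : ℕ}
    (hi : i < m) (hj : j < n) (a b c : ℕ × ℕ) (ha : Mem C a.1 a.2) (hb : Mem C b.1 b.2)
    (hc : Mem C c.1 c.2) (hab : a ≠ b) (hac : a ≠ c) (hbc : b ≠ c)
    (ga : (i ≤ a.1 + 1 ∧ a.1 ≤ i + 1) ∧ (j ≤ a.2 + 1 ∧ a.2 ≤ j + 1))
    (gb : (i ≤ b.1 + 1 ∧ b.1 ≤ i + 1) ∧ (j ≤ b.2 + 1 ∧ b.2 ≤ j + 1))
    (gc : (i ≤ c.1 + 1 ∧ c.1 ≤ i + 1) ∧ (j ≤ c.2 + 1 ∧ c.2 ≤ j + 1)) : Mem C i j := by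
  by_contra hn
  obtain ⟨ha1, ha2, ha⟩ := ha
  obtain ⟨hb1, hb2, hb⟩ := hb
  obtain ⟨hc1, hc2, hc⟩ := hc
  apply hn
  refine ⟨hi, hj, hC _ ?_⟩
  have hne : ∀ (x : ℕ × ℕ) (h1 : x.1 < m) (h2 : x.2 < n),
      ((⟨x.1, h1⟩, ⟨x.2, h2⟩) : Fin m × Fin n) ∈ C →
      ((⟨i, hi⟩, ⟨j, hj⟩) : Fin m × Fin n) ≠ (⟨x.1, h1⟩, ⟨x.2, h2⟩) := by
    intro x h1 h2 hx h
    rw [← h] at hx
    exact hn ⟨hi, hj, hx⟩
  have h3 : ({((⟨a.1, ha1⟩, ⟨a.2, ha2⟩) : Fin m × Fin n), (⟨b.1, hb1⟩, ⟨b.2, hb2⟩),
      (⟨c.1, hc1⟩, ⟨c.2, hc2⟩)} : Set (Fin m × Fin n)).ncard = 3 := by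
    rw [Set.ncard_eq_three]
    refine ⟨_, _, _, ?_, ?_, ?_, rfl⟩
    · intro h; apply hab
      simp only [Prod.mk.injEq, Fin.mk.injEq] at h
      exact Prod.ext h.1 h.2
    · intro h; apply hac
      simp only [Prod.mk.injEq, Fin.mk.injEq] at h
      exact Prod.ext h.1 h.2
    · intro h; apply hbc
      simp only [Prod.mk.injEq, Fin.mk.injEq] at h
      exact Prod.ext h.1 h.2
  rw [← h3]
  apply Set.ncard_le_ncard _ (Set.toFinite _)
  rintro x (rfl | rfl | rfl)
  · exact ⟨ha, hne a ha1 ha2 ha, ga⟩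
  · exact ⟨hb, hne b hb1 hb2 hb, gb⟩
  · exact ⟨hc, hne c hc1 hc2 hc, gc⟩

/-- A set with at most two elements is closed under the 3-neighbour process. -/
lemma closed_of_ncard_le [Finite V] {G : SimpleGraph V} {A : Set V} (h : A.ncard ≤ 2) :
    Closed 3 G A := by
  intro v hv
  have : {u | u ∈ A ∧ G.Adj v u}.ncard ≤ A.ncard :=
    Set.ncard_le_ncard (fun u hu => hu.1) (Set.toFinite _)
  omega

/-- Two cells given by natural numbers are equal or adjacent. -/
def Near (i j : ℕ) (a : ℕ × ℕ) : Prop :=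
  (i ≤ a.1 + 1 ∧ a.1 ≤ i + 1) ∧ (j ≤ a.2 + 1 ∧ a.2 ≤ j + 1)

lemma near {i j a b : ℕ} (h : i ≤ a + 1 ∧ a ≤ i + 1 ∧ j ≤ b + 1 ∧ b ≤ j + 1) :
    Near i j (a, b) := ⟨⟨h.1, h.2.1⟩, h.2.2⟩

/-! ### The case `min(m,n) ≥ 3` -/

lemma upper_big {m n : ℕ} (hm : 3 ≤ m) (hn : 3 ≤ n) : m3 m n ≤ 3 := by
  let A : Set (Fin m × Fin n) := {(⟨0, by omega⟩, ⟨0, by omega⟩), (⟨0, by omega⟩, ⟨2, by omega⟩),
    (⟨2, by omega⟩, ⟨1, by omega⟩)}
  refine minInfect_le (A := A) ?_ ?_
  · rw [fullyInfects_iff]
    intro C hC hAC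
    have h00 : Mem C 0 0 := ⟨by omega, by omega, hAC (by simp [A])⟩
    have h02 : Mem C 0 2 := ⟨by omega, by omega, hAC (by simp [A])⟩
    have h21 : Mem C 2 1 := ⟨by omega, by omega, hAC (by simp [A])⟩
    have h11 : Mem C 1 1 := rule hC (by omega) (by omega) (0, 0) (0, 2) (2, 1) h00 h02 h21
      (by simp) (by simp) (by simp)
            (near (by omega)) (near (by omega)) (near (by omega))
    have h01 : Mem C 0 1 := rule hC (by omega) (by omega) (0, 0) (0, 2) (1, 1) h00 h02 h11
      (by simp) (by simp) (by simp)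
            (near (by omega)) (near (by omega)) (near (by omega))
    have h10 : Mem C 1 0 := rule hC (by omega) (by omega) (0, 0) (0, 1) (1, 1) h00 h01 h11
      (by simp) (by simp) (by simp)
            (near (by omega)) (near (by omega)) (near (by omega))
    have h12 : Mem C 1 2 := rule hC (by omega) (by omega) (0, 2) (0, 1) (1, 1) h02 h01 h11
      (by simp) (by simp) (by simp)
            (near (by omega)) (near (by omega)) (near (by omega))
    -- the first three columns
    have hcol : ∀ i, i < m → Mem C i 0 ∧ Mem C i 1 ∧ Mem C i 2 := by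
      intro i
      induction i with
      | zero => intro _; exact ⟨h00, h01, h02⟩
      | succ i ih =>
        intro hi
        obtain ⟨i0, i1, i2⟩ := ih (by omega)
        have j1 : Mem C (i + 1) 1 := rule hC hi (by omega) (i, 0) (i, 1) (i, 2) i0 i1 i2
          (by simp) (by simp) (by simp)
            (near (by omega)) (near (by omega)) (near (by omega))
        have j0 : Mem C (i + 1) 0 := rule hC hi (by omega) (i, 0) (i, 1) (i + 1, 1) i0 i1 j1
          (by simp) (by simp) (by simp)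
            (near (by omega)) (near (by omega)) (near (by omega))
        have j2 : Mem C (i + 1) 2 := rule hC hi (by omega) (i, 1) (i, 2) (i + 1, 1) i1 i2 j1
          (by simp) (by simp) (by simp)
            (near (by omega)) (near (by omega)) (near (by omega))
        exact ⟨j0, j1, j2⟩
    have hall : ∀ j, j < n → ∀ i, i < m → Mem C i j := by
      intro j
      induction j with
      | zero => intro _ i hi; exact (hcol i hi).1
      | succ j ih =>
        intro hj
        have ih' := ih (by omega)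
        have j1 : Mem C 1 (j + 1) := rule hC (by omega) hj (0, j) (1, j) (2, j)
          (ih' 0 (by omega)) (ih' 1 (by omega)) (ih' 2 (by omega))
          (by simp) (by simp) (by simp)
            (near (by omega)) (near (by omega)) (near (by omega))
        have j0 : Mem C 0 (j + 1) := rule hC (by omega) hj (0, j) (1, j) (1, j + 1)
          (ih' 0 (by omega)) (ih' 1 (by omega)) j1
          (by simp) (by simp) (by simp)
            (near (by omega)) (near (by omega)) (near (by omega))
        intro i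
        induction i with
        | zero => intro _; exact j0
        | succ i ihi =>
          intro hi
          exact rule hC hi hj (i, j) (i + 1, j) (i, j + 1)
            (ih' i (by omega)) (ih' (i + 1) hi) (ihi (by omega))
            (by simp) (by simp) (by simp)
            (near (by omega)) (near (by omega)) (near (by omega))
    rw [Set.eq_univ_iff_forall]
    rintro ⟨i, j⟩
    obtain ⟨_, _, h⟩ := hall j.1 j.2 i.1 i.2
    exact h
  · calc A.ncard ≤ ({(⟨0, by omega⟩, ⟨2, by omega⟩),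
        (⟨2, by omega⟩, ⟨1, by omega⟩)} : Set (Fin m × Fin n)).ncard + 1 := Set.ncard_insert_le _ _
      _ ≤ 3 := by
        have := Set.ncard_insert_le ((⟨0, by omega⟩, ⟨2, by omega⟩) : Fin m × Fin n)
          {((⟨2, by omega⟩, ⟨1, by omega⟩) : Fin m × Fin n)}
        rw [Set.ncard_singleton] at this
        omega

lemma lower_big {m n : ℕ} (h : 3 ≤ m * n) : 3 ≤ m3 m n := by
  apply le_minInfect
  intro A hA
  by_contra hlt
  push Not at hlt
  have h1 := fullyInfects_iff.1 hA A (closed_of_ncard_le (by omega)) subset_rfl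
  rw [h1, Set.ncard_univ] at hlt
  simp at hlt
  omega

/-! ### The case `min(m,n) = 1` -/

lemma one_row (n : ℕ) : m3 1 n = n := by
  apply le_antisymm
  · apply minInfect_le (fullyInfects_univ _ _)
    rw [Set.ncard_univ]; simp
  · apply le_minInfect
    intro A hA
    have hcl : Closed 3 (King 1 n) A := by
      intro v hv
      exfalso
      have hsub : {u | u ∈ A ∧ (King 1 n).Adj v u} ⊆
          {u : Fin 1 × Fin n | u.2.1 + 1 = v.2.1} ∪ {u | u.2.1 = v.2.1 + 1} := by
        rintro u ⟨_, hne, _, h1, h2⟩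
        have : v.2.1 ≠ u.2.1 := by
          intro h
          apply hne
          exact Prod.ext (Subsingleton.elim _ _) (Fin.ext h)
        simp only [Set.mem_union, Set.mem_ofPred_eq]
        omega
      have h1 : {u : Fin 1 × Fin n | u.2.1 + 1 = v.2.1}.ncard ≤ 1 := by
        rw [Set.ncard_le_one_iff]
        rintro ⟨a, b⟩ ⟨c, d⟩ h h'
        simp only [Set.mem_ofPred_eq] at h h'
        exact Prod.ext (Subsingleton.elim _ _) (Fin.ext (by simp; omega))
      have h2 : {u : Fin 1 × Fin n | u.2.1 = v.2.1 + 1}.ncard ≤ 1 := by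
        rw [Set.ncard_le_one_iff]
        rintro ⟨a, b⟩ ⟨c, d⟩ h h'
        simp only [Set.mem_ofPred_eq] at h h'
        exact Prod.ext (Subsingleton.elim _ _) (Fin.ext (by simp; omega))
      have h3 := Set.ncard_le_ncard hsub (Set.toFinite _)
      have h4 := Set.ncard_union_le {u : Fin 1 × Fin n | u.2.1 + 1 = v.2.1}
        {u | u.2.1 = v.2.1 + 1}
      omega
    have h1 := fullyInfects_iff.1 hA A hcl subset_rfl
    rw [h1, Set.ncard_univ]
    simp

/-! ### The case `min(m,n) = 2` -/

lemma col_card {n : ℕ} (k : ℕ) : {u : Fin 2 × Fin n | u.2.1 = k}.ncard ≤ 2 := by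
  by_cases hk : k < n
  · have hsub : {u : Fin 2 × Fin n | u.2.1 = k} ⊆ {(0, ⟨k, hk⟩), (1, ⟨k, hk⟩)} := by
      rintro ⟨i, j⟩ h
      have hj : j = ⟨k, hk⟩ := Fin.ext h
      subst hj
      fin_cases i <;> simp
    refine le_trans (Set.ncard_le_ncard hsub (Set.toFinite _)) ?_
    refine le_trans (Set.ncard_insert_le _ _) ?_
    rw [Set.ncard_singleton]
  · have : {u : Fin 2 × Fin n | u.2.1 = k} = ∅ := by
      ext u
      have := u.2.2
      simp only [Set.mem_ofPred_eq, Set.mem_empty_iff_false, iff_false]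
      omega
    rw [this]
    simp

/-- The number of cells of `A` in column `k` (columns numbered from `1`). -/
noncomputable def cc {n : ℕ} (A : Finset (Fin 2 × Fin n)) (k : ℕ) : ℕ :=
  (A.filter fun u => u.2.1 + 1 = k).card

lemma cc_sum {n : ℕ} (A : Finset (Fin 2 × Fin n)) :
    A.card = ∑ k ∈ Finset.range (n + 2), cc A k := by
  unfold cc
  apply Finset.card_eq_sum_card_fiberwise
  intro u _
  have := u.2.2
  rw [Finset.mem_coe, Finset.mem_range]
  show u.2.1 + 1 < n + 2
  omega

lemma cc_zero {n : ℕ} (A : Finset (Fin 2 × Fin n)) : cc A 0 = 0 := by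
  unfold cc
  rw [Finset.card_eq_zero, Finset.filter_eq_empty_iff]
  intro u _
  omega

lemma cc_last {n : ℕ} (A : Finset (Fin 2 × Fin n)) : cc A (n + 1) = 0 := by
  unfold cc
  rw [Finset.card_eq_zero, Finset.filter_eq_empty_iff]
  intro u _
  have := u.2.2
  omega

/-- Two consecutive columns (including the virtual columns `0` and `n + 1`) are not both empty. -/
lemma cc_pair {n : ℕ} (hn : 1 ≤ n) (A : Finset (Fin 2 × Fin n))
    (hA : FullyInfects 3 (King 2 n) (A : Set (Fin 2 × Fin n))) (k : ℕ) (hk : k ≤ n) :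
    1 ≤ cc A k + cc A (k + 1) := by
  by_contra hlt
  have h1 : cc A k = 0 := by omega
  have h2 : cc A (k + 1) = 0 := by omega
  unfold cc at h1 h2
  rw [Finset.card_eq_zero, Finset.filter_eq_empty_iff] at h1 h2
  let C : Set (Fin 2 × Fin n) := {u | ¬ (u.2.1 + 1 = k ∨ u.2.1 + 1 = k + 1)}
  have hAC : (A : Set (Fin 2 × Fin n)) ⊆ C := by
    rintro u hu (h | h)
    · exact h1 hu h
    · exact h2 hu h
  have hcl : Closed 3 (King 2 n) C := by
    intro v hv
    by_contra hvC
    have hvC' : v.2.1 + 1 = k ∨ v.2.1 + 1 = k + 1 := by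
      by_contra h; exact hvC h
    rcases hvC' with h | h
    · have hsub : {u | u ∈ C ∧ (King 2 n).Adj v u} ⊆ {u : Fin 2 × Fin n | u.2.1 = k - 2} := by
        rintro u ⟨hu, _, _, h3, h4⟩
        have hu' : ¬ (u.2.1 + 1 = k ∨ u.2.1 + 1 = k + 1) := hu
        show u.2.1 = k - 2
        omega
      have h5 := Set.ncard_le_ncard hsub (Set.toFinite _)
      have h6 := col_card (n := n) (k - 2)
      omega
    · have hsub : {u | u ∈ C ∧ (King 2 n).Adj v u} ⊆ {u : Fin 2 × Fin n | u.2.1 = k + 1} := by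
        rintro u ⟨hu, _, _, h3, h4⟩
        have hu' : ¬ (u.2.1 + 1 = k ∨ u.2.1 + 1 = k + 1) := hu
        show u.2.1 = k + 1
        omega
      have h5 := Set.ncard_le_ncard hsub (Set.toFinite _)
      have h6 := col_card (n := n) (k + 1)
      omega
  have huniv := fullyInfects_iff.1 hA C hcl hAC
  rw [Set.eq_univ_iff_forall] at huniv
  by_cases hk0 : k = 0
  · exact huniv (0, ⟨0, by omega⟩) (Or.inr (by simp [hk0]))
  · exact huniv (0, ⟨k - 1, by omega⟩) (Or.inl (by simp; omega))

lemma cc_window {n : ℕ} (A : Finset (Fin 2 × Fin n)) (v : Fin 2 × Fin n)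
    (hv : 3 ≤ {u | u ∈ (A : Set (Fin 2 × Fin n)) ∧ (King 2 n).Adj v u}.ncard) :
    3 ≤ cc A v.2.1 + cc A (v.2.1 + 1) + cc A (v.2.1 + 2) := by
  classical
  have hsub : {u | u ∈ (A : Set (Fin 2 × Fin n)) ∧ (King 2 n).Adj v u} ⊆
      (((A.filter fun u => u.2.1 + 1 = v.2.1) ∪ (A.filter fun u => u.2.1 + 1 = v.2.1 + 1) ∪
        (A.filter fun u => u.2.1 + 1 = v.2.1 + 2) : Finset _) : Set _) := by
    rintro u ⟨hu, _, _, h3, h4⟩
    rw [Finset.mem_coe, Finset.mem_union, Finset.mem_union, Finset.mem_filter, Finset.mem_filter,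
      Finset.mem_filter]
    have hu' : u ∈ A := hu
    have : u.2.1 + 1 = v.2.1 ∨ u.2.1 + 1 = v.2.1 + 1 ∨ u.2.1 + 1 = v.2.1 + 2 := by omega
    tauto
  have h1 := Set.ncard_le_ncard hsub (Finset.finite_toSet _)
  rw [Set.ncard_coe_finset] at h1
  have h2 := Finset.card_union_le ((A.filter fun u => u.2.1 + 1 = v.2.1) ∪
    (A.filter fun u => u.2.1 + 1 = v.2.1 + 1)) (A.filter fun u => u.2.1 + 1 = v.2.1 + 2)
  have h3 := Finset.card_union_le (A.filter fun u => u.2.1 + 1 = v.2.1)
    (A.filter fun u => u.2.1 + 1 = v.2.1 + 1)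
  unfold cc
  omega

lemma comb (c : ℕ → ℕ) (n : ℕ) (hn : 2 ≤ n) (h0 : c 0 = 0) (hlast : c (n + 1) = 0)
    (h2 : ∀ k, k ≤ n → 1 ≤ c k + c (k + 1)) (k : ℕ) (hk : k < n)
    (h3 : 3 ≤ c k + c (k + 1) + c (k + 2)) : n / 2 + 2 ≤ ∑ i ∈ Finset.range (n + 2), c i := by
  let F : ℕ → ℕ := fun k => ∑ i ∈ Finset.range k, c i
  have hF : ∀ k, F (k + 1) = F k + c k := fun k => Finset.sum_range_succ c k
  have hF0 : F 0 = 0 := Finset.sum_range_zero c
  have hpre : ∀ k, k ≤ n + 2 → k ≤ 2 * F k + 1 := by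
    intro k
    induction k using Nat.strong_induction_on with
    | _ k ih =>
      intro hk
      match k, ih, hk with
      | 0, _, _ => omega
      | 1, _, _ => omega
      | k + 2, ih, hk =>
        have h4 := ih k (by omega) (by omega)
        have h5 := h2 k (by omega)
        have h6 := hF k
        have h7 := hF (k + 1)
        have h8 : F (k + 1 + 1) = F (k + 2) := rfl
        omega
  have hsuf : ∀ d, d ≤ n + 1 → 2 * F (n + 1 - d) + d ≤ 2 * F (n + 2) := by
    intro d
    induction d using Nat.strong_induction_on with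
    | _ d ih =>
      intro hd
      match d, ih, hd with
      | 0, _, _ =>
        have h6 := hF (n + 1)
        have h8 : F (n + 1 + 1) = F (n + 2) := rfl
        have h9 : F (n + 1 - 0) = F (n + 1) := rfl
        omega
      | 1, _, _ =>
        have h5 := h2 n le_rfl
        have h6 := hF (n + 1)
        have h7 := hF n
        have h8 : F (n + 1 + 1) = F (n + 2) := rfl
        have h9 : F (n + 1 - 1) = F n := rfl
        omega
      | d + 2, ih, hd =>
        have h4 := ih d (by omega) (by omega)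
        have e : n + 1 - (d + 2) + 2 = n + 1 - d := by omega
        have h5 := h2 (n + 1 - (d + 2)) (by omega)
        have h6 := hF (n + 1 - (d + 2))
        have h7 := hF (n + 1 - (d + 2) + 1)
        have h8 : F (n + 1 - (d + 2) + 1 + 1) = F (n + 1 - d) := by rw [← e]
        omega
  have w1 := hF k
  have w2 := hF (k + 1)
  have w3 := hF (k + 2)
  have w4 : F (k + 1 + 1) = F (k + 2) := rfl
  have w5 : F (k + 2 + 1) = F (k + 3) := rfl
  have w6 := hpre k (by omega)
  show n / 2 + 2 ≤ F (n + 2)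
  by_cases hkn : k + 3 ≤ n + 1
  · have w7 := hsuf (n - 2 - k) (by omega)
    have e : n + 1 - (n - 2 - k) = k + 3 := by omega
    rw [e] at w7
    by_cases hk0 : k = 0
    · subst hk0
      omega
    · omega
  · have w7 : F (k + 2 + 1) = F (n + 2) := by rw [show k + 2 + 1 = n + 2 by omega]
    omega

lemma lower_two {n : ℕ} (hn : 2 ≤ n) : n / 2 + 2 ≤ m3 2 n := by
  classical
  apply le_minInfect
  intro A hA
  by_cases hu : A = Set.univ
  · rw [hu, Set.ncard_univ]
    simp
    omega
  · have hncl : ¬ Closed 3 (King 2 n) A := fun h => hu (fullyInfects_iff.1 hA A h subset_rfl)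
    unfold Closed at hncl
    push Not at hncl
    obtain ⟨v, hv, _⟩ := hncl
    have hfA : ((Set.toFinite A).toFinset : Set (Fin 2 × Fin n)) = A := Set.Finite.coe_toFinset _
    set A' := (Set.toFinite A).toFinset with hA'
    rw [← hfA] at hv hA ⊢
    rw [Set.ncard_coe_finset, cc_sum]
    exact comb (cc A') n hn (cc_zero A') (cc_last A')
      (fun k hk => cc_pair (by omega) A' hA k hk) v.2.1 v.2.2 (cc_window A' v hv)

lemma upper_two {n : ℕ} (hn : 2 ≤ n) : m3 2 n ≤ n / 2 + 2 := by
  let f : Fin (n / 2 + 2) → Fin 2 × Fin n := fun k =>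
    if k.1 = 0 then (1, ⟨0, by omega⟩) else (0, ⟨min (2 * (k.1 - 1)) (n - 1), by omega⟩)
  refine minInfect_le (A := Set.range f) ?_ ?_
  · rw [fullyInfects_iff]
    intro C hC hAC
    have h10 : Mem C 1 0 := ⟨by omega, by omega, hAC ⟨⟨0, by omega⟩, by simp [f]⟩⟩
    have htop : ∀ k, k ≤ n / 2 → Mem C 0 (min (2 * k) (n - 1)) := by
      intro k hk
      refine ⟨by omega, by omega, hAC ⟨⟨k + 1, by omega⟩, ?_⟩⟩
      simp [f]
    have heven : ∀ k, 2 * k < n → Mem C 0 (2 * k) ∧ Mem C 1 (2 * k) := by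
      intro k
      induction k with
      | zero =>
        intro _
        have := htop 0 (by omega)
        simp only [mul_zero, Nat.zero_min] at this
        exact ⟨this, h10⟩
      | succ k ih =>
        intro hk
        obtain ⟨i0, i1⟩ := ih (by omega)
        have t := htop (k + 1) (by omega)
        rw [min_eq_left (by omega)] at t
        have e : 2 * (k + 1) = 2 * k + 2 := by ring
        rw [e] at t ⊢
        have j0 : Mem C 0 (2 * k + 1) := rule hC (by omega) (by omega) (0, 2 * k) (1, 2 * k)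
          (0, 2 * k + 2) i0 i1 t (by simp) (by simp) (by simp)
            (near (by omega)) (near (by omega)) (near (by omega))
        have j1 : Mem C 1 (2 * k + 1) := rule hC (by omega) (by omega) (0, 2 * k) (1, 2 * k)
          (0, 2 * k + 2) i0 i1 t (by simp) (by simp) (by simp)
            (near (by omega)) (near (by omega)) (near (by omega))
        refine ⟨t, ?_⟩
        exact rule hC (by omega) (by omega) (0, 2 * k + 1) (1, 2 * k + 1)
          (0, 2 * k + 2) j0 j1 t (by simp) (by simp) (by simp)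
            (near (by omega)) (near (by omega)) (near (by omega))
    have hodd : ∀ k, 2 * k + 1 < n → Mem C 0 (2 * k + 1) ∧ Mem C 1 (2 * k + 1) := by
      intro k hk
      obtain ⟨i0, i1⟩ := heven k (by omega)
      by_cases hlast : 2 * k + 2 < n
      · have t : Mem C 0 (2 * k + 2) := by
          have := (heven (k + 1) (by omega)).1
          have e : 2 * (k + 1) = 2 * k + 2 := by ring
          rwa [e] at this
        constructor
        · exact rule hC (by omega) (by omega) (0, 2 * k) (1, 2 * k)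
            (0, 2 * k + 2) i0 i1 t (by simp) (by simp) (by simp)
            (near (by omega)) (near (by omega)) (near (by omega))
        · exact rule hC (by omega) (by omega) (0, 2 * k) (1, 2 * k)
            (0, 2 * k + 2) i0 i1 t (by simp) (by simp) (by simp)
            (near (by omega)) (near (by omega)) (near (by omega))
      · have t := htop (k + 1) (by omega)
        have e : min (2 * (k + 1)) (n - 1) = 2 * k + 1 := by omega
        rw [e] at t
        refine ⟨t, ?_⟩
        exact rule hC (by omega) (by omega) (0, 2 * k) (1, 2 * k)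
          (0, 2 * k + 1) i0 i1 t (by simp) (by simp) (by simp)
            (near (by omega)) (near (by omega)) (near (by omega))
    have hall : ∀ j, j < n → Mem C 0 j ∧ Mem C 1 j := by
      intro j hj
      rcases Nat.even_or_odd' j with ⟨k, rfl | rfl⟩
      · exact heven k hj
      · exact hodd k hj
    rw [Set.eq_univ_iff_forall]
    rintro ⟨i, j⟩
    obtain ⟨⟨_, _, h0⟩, ⟨_, _, h1⟩⟩ := hall j.1 j.2
    fin_cases i
    · exact h0
    · exact h1
  · rw [← Set.image_univ]
    refine le_trans (Set.ncard_image_le (Set.toFinite _)) ?_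
    rw [Set.ncard_univ]
    simp

/-- **Main theorem.**  The exact value of `m₃(m,n)` for all `m, n ≥ 1`. -/
theorem result (m n : ℕ) (hm : 1 ≤ m) (hn : 1 ≤ n) :
    m3 m n = if min m n = 1 then max m n else if min m n = 2 then max m n / 2 + 2 else 3 := by
  have key : ∀ m n : ℕ, 1 ≤ m → m ≤ n →
      m3 m n = if m = 1 then n else if m = 2 then n / 2 + 2 else 3 := by
    intro m n hm hmn
    split_ifs with h1 h2
    · subst h1; exact one_row n
    · subst h2
      exact le_antisymm (upper_two hmn) (lower_two hmn)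
    · have h3 : 3 ≤ m := by omega
      exact le_antisymm (upper_big h3 (by omega)) (lower_big (by nlinarith))
  rcases le_total m n with h | h
  · rw [min_eq_left h, max_eq_right h]
    exact key m n hm h
  · rw [min_eq_right h, max_eq_left h, m3_comm]
    exact key n m hn h

end Pool.Agent.Results.MP_87c242_co.ExactThreeNeighbour
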